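import Pool.Agent.Work.MP_d2e081_al.Rips.D

/-! Assembly of the exact sequence. -/

set_option autoImplicit false

namespace Pool.Agent.Work.MP_d2e081_al.Rips

open Module

open scoped Classical

open Pool.Agent.Work.MP_3b70de_al.E (K8)

variable {β I : Type} {L : I → Subgroup (FreeGroup β)} [∀ i, (L i).Normal]
  [∀ i, (L i).FiniteIndex]

omit [∀ i, (L i).Normal] in
theorem rf_sub (H : Subgroup (GG K8 L)) : Group.ResiduallyFinite H :=
  Group.residuallyFinite_iff_exists_finiteIndex.2 fun g hg => by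
    obtain ⟨i, hi⟩ := Function.ne_iff.1 (fun e => hg (Subtype.ext e) : g.1 ≠ 1)
    have : Finite (End K8 (Fin 3 → FreeGroup β ⧸ L i → K8))ˣ :=
      Finite.of_injective (fun g => (g.val : (Fin 3 → FreeGroup β ⧸ L i → K8) → _))
        fun _ _ h => Units.ext (DFunLike.coe_injective h)
    exact ⟨((Pi.evalMonoidHom _ i).comp H.subtype).ker, Subgroup.finiteIndex_ker _, hi⟩

theorem core [Finite β] (hL : Function.Injective L) {F Q : Type} [Group F] [Group.FG F] [Group Q]
    (j : F →* FreeGroup β) (π : F →* Q) (hπ : Function.Surjective π)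
    (ha : ∀ w, π w = 1 → {i | j w ∉ L i}.Finite)
    (hb : ∀ w, (∃ S : Finset (FreeGroup β), ∀ i (y : FreeGroup β ⧸ L i), ∃ s ∈ S,
      (s : FreeGroup β ⧸ L i) * y = y * j w) → π w = 1) :
    ∃ (G H : Type) (_ : Group G) (_ : Group H) (u : G →* H) (f : H →* Q),
      Function.Injective u ∧ Function.Surjective f ∧ u.range = f.ker ∧
      Group.FG G ∧ Group.FG H ∧ Group.ResiduallyFinite G ∧ Group.ResiduallyFinite H ∧
      Kazhdan G ∧ HasFA G ∧ ∀ N : Subgroup G, N.Normal → N.index ≠ 0 →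
        ∃ M : Subgroup H, M.Normal ∧ M.index ≠ 0 ∧ M.comap u ≤ N := by
  have := Fintype.ofFinite β
  obtain ⟨t⟩ := Gam_tri (K := K8) (L := L)
  have hG := t.fg
  let θ' : F →* GG K8 L := (th K8 L).comp j
  let H : Subgroup (GG K8 L) := Gam K8 L ⊔ θ'.range
  let u : Gam K8 L →* H := Subgroup.inclusion le_sup_left
  let θ : F →* H := θ'.codRestrict H fun w => Subgroup.mem_sup_right ⟨w, rfl⟩
  have hs : ∀ h : H, ∃ g w, h = u g * θ w := by
    let T : Subgroup (GG K8 L) :=
      { carrier := {x | ∃ g ∈ Gam K8 L, ∃ w, x = g * θ' w}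
        one_mem' := ⟨1, one_mem _, 1, by rw [map_one, mul_one]⟩
        mul_mem' := by
          rintro _ _ ⟨g, hg, w, rfl⟩ ⟨g', hg', w', rfl⟩
          refine ⟨_, mul_mem hg (th_conj (j w) hg'), w * w', ?_⟩
          rw [map_mul]
          change _ = g * (θ' w * g' * (θ' w)⁻¹) * _
          group
        inv_mem' := by
          rintro _ ⟨g, hg, w, rfl⟩
          refine ⟨_, th_conj (j w⁻¹) (inv_mem hg), w⁻¹, ?_⟩
          change _ = θ' w⁻¹ * g⁻¹ * (θ' w⁻¹)⁻¹ * _
          rw [map_inv]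
          group }
    have hT : H ≤ T := sup_le (fun g hg => ⟨g, hg, 1, by rw [map_one, mul_one]⟩) (by
      rintro _ ⟨w, rfl⟩
      exact ⟨1, one_mem _, w, (one_mul _).symm⟩)
    intro h
    obtain ⟨g, hg, w, e⟩ := hT h.2
    exact ⟨⟨g, hg⟩, w, Subtype.ext e⟩
  have hα : ∀ h : H, ∃ α : Gam K8 L →* Gam K8 L, ∀ g, u (α g) = h * u g * h⁻¹ := fun h => by
    obtain ⟨a, w, rfl⟩ := hs h
    refine ⟨(MulAut.conj a).toMonoidHom.comp (((MulAut.conj (θ' w)).toMonoidHom.comp
      (Gam K8 L).subtype).codRestrict _ fun g => th_conj (j w) g.2), fun g => Subtype.ext ?_⟩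
    change a.1 * (θ' w * g.1 * (θ' w)⁻¹) * a.1⁻¹ = a.1 * θ' w * g.1 * (a.1 * θ' w)⁻¹
    group
  have hk : ∀ w g, u g = θ w → π w = 1 := fun w g e =>
    hb w (th_bounded (K := K8) ((show g.1 = th K8 L (j w) from congrArg Subtype.val e) ▸ g.2))
  have hn : u.range.Normal := ⟨by
    rintro _ ⟨g, rfl⟩ h
    obtain ⟨α, hα⟩ := hα h
    exact ⟨_, hα g⟩⟩
  let ψ : F →* H ⧸ u.range := (QuotientGroup.mk' _).comp θ
  have hψ : Function.Surjective ψ := fun q => by
    obtain ⟨h, rfl⟩ := QuotientGroup.mk_surjective q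
    obtain ⟨g, w, rfl⟩ := hs h
    refine ⟨w, ?_⟩
    rw [QuotientGroup.mk_mul, (QuotientGroup.eq_one_iff (N := u.range) (u g)).2 ⟨g, rfl⟩, one_mul]
    rfl
  let f : H →* Q := (ψ.liftOfSurjective hψ ⟨π, fun w hw => by
    obtain ⟨g, hg⟩ := (QuotientGroup.eq_one_iff _).1 hw
    exact hk w g hg⟩).comp (QuotientGroup.mk' _)
  have f1 : ∀ w, f (θ w) = π w := fun w =>
    MonoidHom.liftOfRightInverse_comp_apply ψ _ (Function.rightInverse_surjInv hψ) _ w
  have f2 : ∀ g, f (u g) = 1 := fun g => by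
    rw [MonoidHom.comp_apply, QuotientGroup.mk'_apply,
      (QuotientGroup.eq_one_iff (N := u.range) (u g)).2 ⟨g, rfl⟩, map_one]
  refine ⟨Gam K8 L, H, inferInstance, inferInstance, u, f, Subgroup.inclusion_injective _,
    fun q => ?_, le_antisymm ?_ fun h hh => ?_, hG, ?_, rf_sub _, rf_sub _, t.kazhdan, t.hasFA,
    cong_of_tail θ hα hs fun U _ _ => ?_⟩
  · obtain ⟨w, rfl⟩ := hπ q
    exact ⟨_, f1 w⟩
  · rintro _ ⟨g, rfl⟩
    exact f2 g
  · obtain ⟨g, w, rfl⟩ := hs h
    rw [MonoidHom.mem_ker, map_mul, f1, f2, one_mul] at hh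
    exact mul_mem ⟨g, rfl⟩ ⟨⟨_, th_mem (ha w hh) fun i _ a b r =>
      Subgroup.subset_closure ⟨a, b, _, single_mem hL i r, rfl⟩⟩, rfl⟩
  · exact (Group.fg_iff_subgroup_fg _).2 (((Group.fg_iff_subgroup_fg _).1 hG).sup
      ((Group.fg_iff_subgroup_fg _).1 inferInstance))
  · have hT := (tail hL U).to_subtype
    refine ⟨⨅ i : {i | ¬ ∀ a b r, XX K8 L a b (Pi.single i r) ∈ U.map (Gam K8 L).subtype},
      (L i).comap j, Subgroup.finiteIndex_iInf fun i => ⟨?_⟩, fun w hw g e => ?_⟩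
    · exact (FiniteIndexNormalSubgroup.comap j
        ⟨L i, inferInstance, inferInstance⟩).isFiniteIndex'.index_ne_zero
    · obtain ⟨g', h1, h2⟩ := th_mem (N := U.map (Gam K8 L).subtype) (ha w (hk w g e))
        fun i hi => by
          by_contra hc
          exact hi (Subgroup.mem_iInf.1 hw ⟨i, hc⟩)
      rwa [show g = g' from Subtype.ext ((congrArg Subtype.val e).trans h2.symm)]

open CategoryTheory ProfiniteGrp ProfiniteGrp.ProfiniteCompletion in
theorem inj_completion {G H : Type} [Group G] [Group H] {u : G →* H}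
    (h1 : ∀ N : Subgroup G, N.Normal → N.index ≠ 0 →
      ∃ M : Subgroup H, M.Normal ∧ M.index ≠ 0 ∧ M.comap u ≤ N) :
    Function.Injective (profiniteCompletion.map (GrpCat.ofHom u)).hom := by
  let w : completion (GrpCat.of G) ⟶ completion (GrpCat.of H) :=
    lift (GrpCat.ofHom u ≫ eta (GrpCat.of H))
  have e2 : ∀ g, w.hom (etaFn (GrpCat.of G) g) = etaFn (GrpCat.of H) (u g) := fun g =>
    ConcreteCategory.congr_hom (lift_eta (GrpCat.ofHom u ≫ eta (GrpCat.of H))) g
  change Function.Injective w.hom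
  intro x y e
  refine Subtype.ext (funext fun N => ?_)
  obtain ⟨M, hM, hM', h⟩ := h1 N.toSubgroup inferInstance N.isFiniteIndex'.index_ne_zero
  let M' : FiniteIndexNormalSubgroup H := ⟨M, hM, ⟨hM'⟩⟩
  let κ : G ⧸ (M'.comap u).toSubgroup → H ⧸ M := QuotientGroup.map _ _ u le_rfl
  have hκ : Function.Injective κ := fun a b e => by
    obtain ⟨a, rfl⟩ := QuotientGroup.mk_surjective a
    obtain ⟨b, rfl⟩ := QuotientGroup.mk_surjective b
    exact QuotientGroup.eq.2 (show u (a⁻¹ * b) ∈ M by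
      rw [map_mul, map_inv]
      exact QuotientGroup.eq.1 e)
  have key : (fun z => (w.hom z).1 M') = fun z => κ (z.1 (M'.comap u)) := by
    let κ' : (diagram (GrpCat.of G)).obj (M'.comap u) → (diagram (GrpCat.of H)).obj M' := κ
    have : DiscreteTopology ((diagram (GrpCat.of G)).obj (M'.comap u)) := ⟨rfl⟩
    refine (denseRange (GrpCat.of G)).equalizer
      ((continuous_apply M').comp (continuous_subtype_val.comp w.hom.continuous_toFun))
      ((continuous_of_discreteTopology (f := κ')).comp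
        ((continuous_apply (M'.comap u)).comp continuous_subtype_val)) (funext fun g => ?_)
    exact congrArg (fun z => z.1 M') (e2 g)
  have h2 : x.1 (M'.comap u) = y.1 (M'.comap u) :=
    hκ ((congrFun key x).symm.trans ((congrArg (fun z => z.1 M') e).trans (congrFun key y)))
  have f : M'.comap u ⟶ N := homOfLE h
  exact (x.2 f).symm.trans ((congrArg _ h2).trans (y.2 f))

end Pool.Agent.Work.MP_d2e081_al.Rips
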