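import Pool.Agent.Work.MP_d2e081_al.Tree

/-! Group theoretic and linear preliminaries for the exact sequence with Kazhdan kernel. -/

set_option autoImplicit false

namespace Pool.Agent.Work.MP_d2e081_al.Rips

open Module

section
variable {G H F : Type} [Group G] [Group H] [Group F]

theorem finite_hom [h : Group.FG G] (A : Type) [Group A] [Finite A] : Finite (G →* A) := by
  obtain ⟨S, hS, hf⟩ := Group.fg_iff.1 h
  have := hf.to_subtype
  exact Finite.of_injective (fun (φ : G →* A) (s : S) => φ s) fun φ ψ e =>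
    MonoidHom.eq_of_eqOn_dense hS fun s hs => congrFun e ⟨s, hs⟩

/-- Finite index subgroups of the kernel are cut out by finite index subgroups of the extension. -/
theorem cong_of_tail [Group.FG G] {u : G →* H} (θ : F →* H)
    (hα : ∀ h : H, ∃ α : G →* G, ∀ g, u (α g) = h * u g * h⁻¹)
    (hs : ∀ h : H, ∃ g w, h = u g * θ w)
    (ht : ∀ U : Subgroup G, U.Normal → U.FiniteIndex → ∃ Γ : Subgroup F, Γ.FiniteIndex ∧
      ∀ w ∈ Γ, ∀ g, u g = θ w → g ∈ U)
    (N : Subgroup G) (hN : N.Normal) (hi : N.index ≠ 0) :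
    ∃ M : Subgroup H, M.Normal ∧ M.index ≠ 0 ∧ M.comap u ≤ N := by
  have : N.FiniteIndex := ⟨hi⟩
  have := finite_hom (G := G) (G ⧸ N)
  let U : Subgroup G := ⨅ φ : G →* G ⧸ N, φ.ker
  have U1 : U.Normal := Subgroup.normal_iInf_normal fun φ => inferInstance
  have U2 : U.FiniteIndex := Subgroup.finiteIndex_iInf fun φ => inferInstance
  have U3 : U ≤ N := fun g hg =>
    (QuotientGroup.eq_one_iff _).1 (Subgroup.mem_iInf.1 hg (QuotientGroup.mk' N))
  have U4 : (U.map u).Normal := ⟨by
    rintro _ ⟨g, hg, rfl⟩ h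
    obtain ⟨α, hα⟩ := hα h
    exact ⟨α g, Subgroup.mem_iInf.2 fun φ => Subgroup.mem_iInf.1 hg (φ.comp α), hα g⟩⟩
  obtain ⟨Γ, hΓ, ht⟩ := ht U U1 U2
  let V : Subgroup H := U.map u ⊔ Γ.map θ
  have V1 : Finite (H ⧸ V) := by
    refine Finite.of_surjective
      (fun p : (G ⧸ U) × (F ⧸ Γ) => ((u p.1.out * θ p.2.out : H) : H ⧸ V)) fun q => ?_
    obtain ⟨h, rfl⟩ := QuotientGroup.mk_surjective q
    obtain ⟨g, w, rfl⟩ := hs h
    refine ⟨(g, w), QuotientGroup.eq.2 ?_⟩
    have h1 := QuotientGroup.eq.1 (QuotientGroup.out_eq' (g : G ⧸ U))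
    have h2 := QuotientGroup.eq.1 (QuotientGroup.out_eq' (w : F ⧸ Γ))
    have h3 := mul_mem (Subgroup.mem_sup_left (T := Γ.map θ)
      (U4.conj_mem _ ⟨_, h1, rfl⟩ (θ (w : F ⧸ Γ).out)⁻¹))
      (Subgroup.mem_sup_right (S := U.map u) (T := Γ.map θ) ⟨_, h2, rfl⟩)
    refine (congrArg (· ∈ V) ?_).mp h3
    simp only [map_mul, map_inv]
    group
  have V2 : V.FiniteIndex := Subgroup.finiteIndex_of_finite_quotient
  refine ⟨V.normalCore, inferInstance, Subgroup.FiniteIndex.index_ne_zero, fun g hg => ?_⟩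
  obtain ⟨_, ⟨a, ha, rfl⟩, _, ⟨w, hw, rfl⟩, e⟩ :=
    Subgroup.mem_sup_of_normal_left.1 (V.normalCore_le hg)
  have := ht w hw (a⁻¹ * g) (by rw [map_mul, map_inv, ← e, inv_mul_cancel_left])
  exact U3 (by simpa using mul_mem ha this)

theorem dense_of_quot {Q : Type} [Group Q] {u : G →* H} {f : H →* Q} (hf : Function.Surjective f)
    (h : u.range = f.ker) (hQ : ∀ M : Subgroup Q, M.FiniteIndex → M = ⊤) (M : Subgroup H)
    (_ : M.Normal) (hM : M.index ≠ 0) (x : H) : ∃ g, ∃ m ∈ M, x = u g * m := by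
  have := hQ (M.map f) ⟨ne_zero_of_dvd_ne_zero hM (M.index_map_dvd hf)⟩
  obtain ⟨m, hm, e⟩ : f x ∈ M.map f := this ▸ Subgroup.mem_top _
  obtain ⟨g, hg⟩ : x * m⁻¹ ∈ u.range := by
    rw [h, MonoidHom.mem_ker, map_mul, map_inv, e, mul_inv_cancel]
  exact ⟨g, m, hm, by rw [hg, inv_mul_cancel_right]⟩

/-- Right translations. -/
def rp (G : Type) [Group G] : G →* Equiv.Perm G where
  toFun g := Equiv.mulRight g⁻¹
  map_one' := Equiv.ext fun y => by simp
  map_mul' g h := Equiv.ext fun y => by simp [mul_assoc]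

end

variable (K : Type) [Field K] {Y : Type}

/-- The diagonal permutation operators. -/
def Dm : Equiv.Perm Y →* (End K (Fin 3 → Y → K))ˣ := MonoidHom.toHomUnits
  { toFun σ := (LinearMap.funLeft K K σ.symm).compLeft (Fin 3)
    map_one' := rfl
    map_mul' _ _ := rfl }

variable {K}

theorem Dm_apply (σ : Equiv.Perm Y) (v : Fin 3 → Y → K) (k : Fin 3) (y : Y) :
    (Dm K σ).val v k y = v k (σ.symm y) := rfl

theorem Dm_conj (σ : Equiv.Perm Y) (a b : Fin 3) (r : End K (Y → K)) :
    Dm K σ * xe a b r * (Dm K σ)⁻¹ =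
      xe a b ((LinearMap.funLeft K K σ.symm : End K (Y → K)) * r * (LinearMap.funLeft K K σ : End K (Y → K))) := by
  by_cases h : a = b
  · rw [h, xe_diag, xe_diag, mul_one, mul_inv_cancel]
  · rw [mul_inv_eq_iff_eq_mul]
    refine Units.ext (LinearMap.ext fun v => funext fun k => funext fun y => ?_)
    have : LinearMap.funLeft K K σ ((Dm K σ).val v b) = v b :=
      funext fun z => congrArg (v b) (σ.symm_apply_apply z)
    rw [Units.val_mul, Units.val_mul, End.mul_apply, End.mul_apply, Dm_apply, xe_apply h,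
      xe_apply h, End.mul_apply, End.mul_apply, this]
    by_cases hk : k = a
    · subst hk
      simp [Dm_apply, LinearMap.funLeft_apply]
    · simp [Dm_apply, hk]

theorem comm_apply {U : Type} [AddCommGroup U] [Module K U] {a b : End K U}
    (hba : ∀ x, b (a x) = 0) {i j : Fin 3} (h : i ≠ j) (v : Fin 3 → U) :
    (xe i j a * xe j i b * xe i j (-a) * xe j i (-b)).val v = v + Pi.single i (a (b (v i))) := by
  simp only [Units.val_mul, End.mul_apply, xe_apply h, xe_apply h.symm]
  funext k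
  by_cases h1 : k = i
  · subst h1
    simp [h, h.symm, hba, add_assoc]
  · by_cases h2 : k = j
    · subst h2
      simp [h, h.symm, hba]
    · simp [h1, h2]

theorem Dm_mem [CharP K 2] [Finite Y] (σ : Equiv.Perm Y) : Dm K σ ∈ EL K (Y → K) := by
  classical
  induction σ using Equiv.Perm.swap_induction_on with
  | one =>
    rw [map_one]
    exact one_mem _
  | swap_mul f x y hxy ih =>
    rw [map_mul]
    refine mul_mem ?_ ih
    let d : Y → K := Pi.single x 1 + Pi.single y 1
    let a : End K (Y → K) := (LinearMap.proj x : (Y → K) →ₗ[K] K).smulRight d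
    let b : End K (Y → K) :=
      ((LinearMap.proj x : (Y → K) →ₗ[K] K) + (LinearMap.proj y : (Y → K) →ₗ[K] K)).smulRight
        (Pi.single x 1)
    have hba : ∀ v, b (a v) = 0 := fun v => by
      simp [a, b, d, hxy, hxy.symm, CharTwo.add_self_eq_zero]
    have hab : ∀ v z, v (Equiv.swap x y z) = v z + a (b v) z := fun v z => by
      by_cases h1 : z = x
      · subst h1
        simp [a, b, d, hxy, CharTwo.add_cancel_left]
      · by_cases h2 : z = y
        · subst h2
          simp [a, b, d, h1, add_comm (v x), CharTwo.add_cancel_left]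
        · simp [a, b, d, h1, h2, Equiv.swap_apply_of_ne_of_ne]
    have : Dm K (Equiv.swap x y) = (xe 0 1 a * xe 1 0 b * xe 0 1 (-a) * xe 1 0 (-b)) *
        ((xe 1 2 a * xe 2 1 b * xe 1 2 (-a) * xe 2 1 (-b)) *
          (xe 2 0 a * xe 0 2 b * xe 2 0 (-a) * xe 0 2 (-b))) := by
      refine Units.ext (LinearMap.ext fun v => funext fun k => funext fun z => ?_)
      rw [Units.val_mul (_ * _ * _ * _), End.mul_apply, comm_apply hba (by decide),
        Units.val_mul (_ * _ * _ * _), End.mul_apply, comm_apply hba (by decide),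
        comm_apply hba (by decide), Dm_apply, Equiv.symm_swap, hab (v k) z]
      fin_cases k <;> simp
    rw [this]
    have m : ∀ i j, xe i j a * xe j i b * xe i j (-a) * xe j i (-b) ∈ EL K (Y → K) := fun i j =>
      mul_mem (mul_mem (mul_mem (xe_mem _ _ _) (xe_mem _ _ _)) (xe_mem _ _ _)) (xe_mem _ _ _)
    exact mul_mem (m _ _) (mul_mem (m _ _) (m _ _))

end Pool.Agent.Work.MP_d2e081_al.Rips
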