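import Pool.Agent.Work.MP_d2e081_al.Rips.A

/-! The algebra of left translations and a point mass over a family of finite quotients. -/

set_option autoImplicit false

namespace Pool.Agent.Work.MP_d2e081_al.Rips

open Module

open FreeGroup (of)

open scoped Classical

variable (K : Type) [Field K] {β I : Type} (L : I → Subgroup (FreeGroup β)) [∀ i, (L i).Normal]

/-- The product algebra. -/
abbrev PP : Type := ∀ i, End K (FreeGroup β ⧸ L i → K)

/-- The left translations. -/
def lam (g : FreeGroup β) : PP K L := fun i =>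
  LinearMap.funLeft K K fun y => (g : FreeGroup β ⧸ L i)⁻¹ * y

/-- The point masses over a set of levels. -/
noncomputable def ea (A : Set I) : PP K L := fun i =>
  LinearMap.mulLeft K (Pi.single 1 (if i ∈ A then 1 else 0))

/-- The generators. -/
noncomputable def gen : Option (β ⊕ β) → PP K L := fun o =>
  o.elim (ea K L Set.univ) (Sum.elim (fun b => lam K L (of b)) fun b => lam K L (of b)⁻¹)

/-- The algebra. -/
noncomputable def RR : Subalgebra K (PP K L) := Algebra.adjoin K (Set.range (gen K L))

/-- The right translations. -/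
def rho (g : FreeGroup β) : PP K L := fun i =>
  LinearMap.funLeft K K fun y => y * (g : FreeGroup β ⧸ L i)

variable {K L}

theorem gen_mem (o : Option (β ⊕ β)) : gen K L o ∈ RR K L := Algebra.subset_adjoin ⟨o, rfl⟩

theorem lam_mul (g h : FreeGroup β) : lam K L (g * h) = lam K L g * lam K L h := by
  funext i
  refine LinearMap.ext fun v => funext fun y => ?_
  simp [lam, LinearMap.funLeft_apply, mul_assoc]

theorem lam_mem (g : FreeGroup β) : lam K L g ∈ RR K L := by
  induction g using FreeGroup.induction_on with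
  | C1 =>
    have : lam K L 1 = 1 := funext fun i => LinearMap.ext fun v => funext fun y => by
      simp [lam, LinearMap.funLeft_apply]
    exact this ▸ one_mem _
  | of b => exact gen_mem (some (Sum.inl b))
  | inv_of b _ => exact gen_mem (some (Sum.inr b))
  | mul x y hx hy => exact lam_mul (K := K) (L := L) x y ▸ mul_mem hx hy

theorem ea_apply (A : Set I) (i : I) (v : FreeGroup β ⧸ L i → K) (y : FreeGroup β ⧸ L i) :
    ea K L A i v y = if y = 1 ∧ i ∈ A then v y else 0 := by
  simp only [ea, LinearMap.mulLeft_apply, Pi.mul_apply, Pi.single_apply]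
  by_cases h : y = 1 <;> by_cases h' : i ∈ A <;> simp [h, h']

theorem ea_lam (g : FreeGroup β) : ea K L {i | g ∈ L i} ∈ RR K L := by
  have : ea K L {i | g ∈ L i} = ea K L Set.univ * lam K L g * ea K L Set.univ := by
    funext i
    refine LinearMap.ext fun v => funext fun y => ?_
    simp only [Pi.mul_apply, End.mul_apply, ea_apply, lam, LinearMap.funLeft_apply,
      Set.mem_ofPred_eq, ← QuotientGroup.eq_one_iff]
    by_cases h : y = 1 <;> by_cases h' : (g : FreeGroup β ⧸ L i) = 1 <;> simp [h, h']
  rw [this]
  exact mul_mem (mul_mem (gen_mem none) (lam_mem g)) (gen_mem none)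

theorem ea_compl {A : Set I} (h : ea K L A ∈ RR K L) : ea K L Aᶜ ∈ RR K L := by
  have : ea K L Aᶜ = ea K L Set.univ - ea K L A := by
    funext i
    refine LinearMap.ext fun v => funext fun y => ?_
    simp only [Pi.sub_apply, LinearMap.sub_apply, ea_apply]
    by_cases h : y = 1 <;> by_cases h' : i ∈ A <;> simp [h, h']
  rw [this]
  exact sub_mem (gen_mem none) h

theorem ea_inter {A B : Set I} (h : ea K L A ∈ RR K L) (h' : ea K L B ∈ RR K L) :
    ea K L (A ∩ B) ∈ RR K L := by
  have : ea K L (A ∩ B) = ea K L A * ea K L B := by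
    funext i
    refine LinearMap.ext fun v => funext fun y => ?_
    simp only [Pi.mul_apply, End.mul_apply, ea_apply]
    by_cases h : y = 1 <;> by_cases h' : i ∈ A <;> by_cases h'' : i ∈ B <;> simp [h, h', h'']
  rw [this]
  exact mul_mem h h'

theorem ea_single [Finite β] [∀ i, (L i).FiniteIndex] (hL : Function.Injective L) (n : I) :
    ea K L {n} ∈ RR K L := by
  obtain ⟨S, hS, hf⟩ := (Subgroup.fg_iff _).1
    ((Group.fg_iff_subgroup_fg (L n)).1 (Subgroup.fg_of_index_ne_zero _))
  have h1 : ∀ W : Set (FreeGroup β), W.Finite →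
      ea K L {i | ∀ g ∈ W, (g ∈ L i ↔ g ∈ L n)} ∈ RR K L := fun W hW => by
    induction W, hW using Set.Finite.induction_on with
    | empty =>
      have : ea K L Set.univ ∈ RR K L := gen_mem none
      simpa using this
    | @insert a s _ _ ih =>
      have : ea K L {i | a ∈ L i ↔ a ∈ L n} ∈ RR K L := by
        by_cases h : a ∈ L n
        · simpa [h] using ea_lam (K := K) (L := L) a
        · simpa [h, Set.compl_ofPred] using ea_compl (ea_lam (K := K) (L := L) a)
      simpa [Set.ofPred_and] using ea_inter this ih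
  have h2 := h1 _ (hf.union (Set.finite_range fun q : FreeGroup β ⧸ L n => q.out))
  refine (congrArg (fun A => ea K L A ∈ RR K L) (Set.ext fun i => ⟨fun h => hL ?_, ?_⟩)).mp h2
  · have h3 : L n ≤ L i := hS.ge.trans ((Subgroup.closure_le _).2 fun g hg =>
      (h g (Or.inl hg)).2 (hS.le (Subgroup.subset_closure hg)))
    refine le_antisymm (fun g hg => ?_) h3
    have h4 := QuotientGroup.eq.1 (QuotientGroup.out_eq' (g : FreeGroup β ⧸ L n))
    have h5 := (h _ (Or.inr ⟨(g : FreeGroup β ⧸ L n), rfl⟩)).1
      (by simpa using mul_mem hg (inv_mem (h3 h4)))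
    simpa using mul_mem h5 h4
  · rintro rfl g _
    rfl

theorem single_mem [Finite β] [∀ i, (L i).FiniteIndex] (hL : Function.Injective L) (n : I)
    (r : End K (FreeGroup β ⧸ L n → K)) : Pi.single n r ∈ RR K L := by
  have := Fintype.ofFinite (FreeGroup β ⧸ L n)
  have h : Pi.single n r = ∑ a : FreeGroup β ⧸ L n, ∑ b : FreeGroup β ⧸ L n,
      r (Pi.single b 1) a • (lam K L a.out * ea K L {n} * lam K L b.out⁻¹) := by
    funext m
    refine LinearMap.ext fun v => funext fun y => ?_
    simp only [Finset.sum_apply, LinearMap.sum_apply, Pi.smul_apply, LinearMap.smul_apply,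
      Pi.mul_apply, End.mul_apply, ea_apply, lam, LinearMap.funLeft_apply]
    by_cases hm : m = n
    · subst hm
      rw [Pi.single_eq_same, LinearMap.pi_apply_eq_sum_univ r v, Finset.sum_comm, Finset.sum_apply]
      refine Finset.sum_congr rfl fun b _ => ?_
      rw [Finset.sum_eq_single y]
      · simp [mul_comm, show (fun k => if b = k then 1 else 0) = (Pi.single b 1 : _ → K) from
          funext fun k => by simp [Pi.single_apply, eq_comm]]
      · intro a _ ha
        simp [inv_mul_eq_one, ha]
      · simp
    · simp [hm]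
  rw [h]
  exact sum_mem fun a _ => sum_mem fun b _ => Subalgebra.smul_mem _
    (mul_mem (mul_mem (lam_mem _) (ea_single hL n)) (lam_mem _)) _

theorem rho_conj (g : FreeGroup β) {r : PP K L} (hr : r ∈ RR K L) :
    rho K L g * r * rho K L g⁻¹ ∈ RR K L := by
  have h1 : rho K L g⁻¹ * rho K L g = 1 := funext fun i => LinearMap.ext fun v =>
    funext fun y => by simp [rho, LinearMap.funLeft_apply]
  have h2 : rho K L g * rho K L g⁻¹ = 1 := funext fun i => LinearMap.ext fun v =>
    funext fun y => by simp [rho, LinearMap.funLeft_apply]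
  have h3 : ∀ h, rho K L g * lam K L h * rho K L g⁻¹ ∈ RR K L := fun h => by
    have : rho K L g * lam K L h * rho K L g⁻¹ = lam K L h := funext fun i =>
      LinearMap.ext fun v => funext fun y => by simp [rho, lam, LinearMap.funLeft_apply, mul_assoc]
    rw [this]
    exact lam_mem h
  induction hr using Algebra.adjoin_induction with
  | mem x hx =>
    obtain ⟨_ | b | b, rfl⟩ := hx
    · have : rho K L g * ea K L Set.univ * rho K L g⁻¹ =
          lam K L g⁻¹ * ea K L Set.univ * lam K L g := funext fun i =>
        LinearMap.ext fun v => funext fun y => by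
          simp [rho, lam, LinearMap.funLeft_apply, ea_apply, mul_eq_one_comm (a := y)]
      exact this.symm ▸ mul_mem (mul_mem (lam_mem _) (gen_mem none)) (lam_mem _)
    · exact h3 _
    · exact h3 _
  | algebraMap a =>
    rw [← Algebra.commutes, mul_assoc, h2, mul_one]
    exact algebraMap_mem _ _
  | add x y _ _ hx hy =>
    rw [mul_add, add_mul]
    exact add_mem hx hy
  | mul x y _ _ hx hy =>
    have := mul_mem hx hy
    rwa [mul_assoc (_ * x), ← mul_assoc (rho K L g⁻¹), ← mul_assoc (rho K L g⁻¹), h1, one_mul,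
      ← mul_assoc, mul_assoc _ x y] at this

/-- Elements of the algebra have bounded propagation. -/
theorem bounded {r : PP K L} (hr : r ∈ RR K L) : ∃ S : Finset (FreeGroup β), ∀ i v y,
    (∀ s ∈ S, v ((s : FreeGroup β ⧸ L i) * y) = 0) → r i v y = 0 := by
  induction hr using Algebra.adjoin_induction with
  | mem x hx =>
    obtain ⟨_ | b | b, rfl⟩ := hx
    · refine ⟨{1}, fun i v y h => ?_⟩
      have := h 1 (by simp)
      rw [QuotientGroup.mk_one, one_mul] at this
      exact (ea_apply _ _ _ _).trans (by simp [this])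
    · exact ⟨{(of b)⁻¹}, fun i v y h => h (of b)⁻¹ (by simp)⟩
    · exact ⟨{(of b)⁻¹⁻¹}, fun i v y h => h (of b)⁻¹⁻¹ (by simp)⟩
  | algebraMap a =>
    refine ⟨{1}, fun i v y h => ?_⟩
    have := h 1 (by simp)
    rw [QuotientGroup.mk_one, one_mul] at this
    simp [this]
  | add x y _ _ hx hy =>
    obtain ⟨S, hS⟩ := hx
    obtain ⟨T, hT⟩ := hy
    refine ⟨S ∪ T, fun i v z h => ?_⟩
    rw [Pi.add_apply, LinearMap.add_apply, Pi.add_apply,
      hS i v z fun s hs => h s (Finset.mem_union_left _ hs),
      hT i v z fun s hs => h s (Finset.mem_union_right _ hs), add_zero]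
  | mul x y _ _ hx hy =>
    obtain ⟨S, hS⟩ := hx
    obtain ⟨T, hT⟩ := hy
    refine ⟨Finset.image₂ (· * ·) T S, fun i v z h => hS i _ z fun s hs => hT i v _ fun t ht => ?_⟩
    rw [← mul_assoc]
    exact h (t * s) (Finset.mem_image₂_of_mem ht hs)

end Pool.Agent.Work.MP_d2e081_al.Rips
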