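import Pool.Agent.Work.MP_d2e081_al.Rips.B

/-! The elementary group over the algebra and its extension by right translations. -/

set_option autoImplicit false

namespace Pool.Agent.Work.MP_d2e081_al.Rips

open Module

open FreeGroup (of)

open scoped Classical

variable (K : Type) [Field K] {β I : Type} (L : I → Subgroup (FreeGroup β)) [∀ i, (L i).Normal]

/-- The product of the linear groups. -/
abbrev GG : Type := ∀ i, (End K (Fin 3 → FreeGroup β ⧸ L i → K))ˣ

/-- The elementary families. -/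
def XX (a b : Fin 3) (r : PP K L) : GG K L := fun i => xe a b (r i)

/-- The elementary group over the algebra. -/
noncomputable def Gam : Subgroup (GG K L) :=
  Subgroup.closure {g | ∃ a b, ∃ r ∈ RR K L, g = XX K L a b r}

/-- The elementary generators. -/
noncomputable def XG (a b : Fin 3) (r : RR K L) : Gam K L :=
  ⟨XX K L a b r, Subgroup.subset_closure ⟨a, b, r, r.2, rfl⟩⟩

/-- The diagonal right translations. -/
def th : FreeGroup β →* GG K L :=
  MonoidHom.pi fun i => (Dm K).comp ((rp _).comp (QuotientGroup.mk' (L i)))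

variable {K L}

theorem XG_st : St3 (XG K L) where
  add i j r s := Subtype.ext (funext fun n => xe_st.add i j (r.1 n) (s.1 n))
  comm i j k l r s h1 h2 :=
    Subtype.ext (funext fun n => xe_st.comm i j k l (r.1 n) (s.1 n) h1 h2)
  st i j k r s h1 h2 h3 := Subtype.ext (funext fun n => xe_st.st i j k (r.1 n) (s.1 n) h1 h2 h3)
  diag i r := Subtype.ext (funext fun n => xe_st.diag i (r.1 n))

theorem XG_gen (N : Subgroup (Gam K L)) (h : ∀ i j r, XG K L i j r ∈ N) : N = ⊤ := by
  refine top_unique (Subgroup.closure_closure_coe_preimage.ge.trans ((Subgroup.closure_le _).2 ?_))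
  rintro ⟨_, hg⟩ ⟨i, j, r, hr, rfl⟩
  exact h i j ⟨r, hr⟩

theorem Gam_tri [Fintype β] : Nonempty (Tri K (Option (Option (β ⊕ β)) → K) (Gam K L)) :=
  (XG_st (K := K) (L := L)).tri (K := K) (fun i => ⟨gen K L i, gen_mem i⟩) (by
    refine top_unique (Algebra.adjoin_adjoin_coe_preimage.ge.trans (Algebra.adjoin_mono ?_))
    rintro ⟨_, hg⟩ ⟨i, rfl⟩
    exact ⟨i, rfl⟩) XG_gen

theorem th_apply (g : FreeGroup β) (i : I) (v : Fin 3 → FreeGroup β ⧸ L i → K) (k : Fin 3)
    (y : FreeGroup β ⧸ L i) : (th K L g i).val v k y = v k (y * g) := by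
  simp [th, Dm_apply, rp]

theorem th_one {g : FreeGroup β} {i : I} (h : g ∈ L i) : th K L g i = 1 := by
  change Dm K (rp _ (g : FreeGroup β ⧸ L i)) = 1
  rw [(QuotientGroup.eq_one_iff _).2 h, map_one, map_one]

theorem th_conj (g : FreeGroup β) {x : GG K L} (hx : x ∈ Gam K L) :
    th K L g * x * (th K L g)⁻¹ ∈ Gam K L := by
  refine (show Gam K L ≤ (Gam K L).comap (MulAut.conj (th K L g)).toMonoidHom from
    (Subgroup.closure_le _).2 ?_) hx
  rintro _ ⟨a, b, r, hr, rfl⟩
  refine Subgroup.subset_closure ⟨a, b, _, rho_conj g hr, funext fun i => ?_⟩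
  refine (Dm_conj (rp _ (g : FreeGroup β ⧸ L i)) a b (r i)).trans (congrArg (xe a b) ?_)
  refine LinearMap.ext fun v => funext fun y => ?_
  simp [rho, rp, LinearMap.funLeft_apply]

omit [∀ i, (L i).Normal] in
theorem single_EL {N : Subgroup (GG K L)} {i : I}
    (h : ∀ a b r, XX K L a b (Pi.single i r) ∈ N) {g} (hg : g ∈ EL K (FreeGroup β ⧸ L i → K)) :
    Pi.mulSingle i g ∈ N := by
  refine (show EL K _ ≤ N.comap (MonoidHom.mulSingle _ i) from (Subgroup.closure_le _).2 ?_) hg
  rintro _ ⟨a, b, r, rfl⟩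
  refine (congrArg (· ∈ N) (funext fun m => ?_)).mp (h a b r)
  by_cases h : m = i
  · subst h
    simp [XX]
  · simp [XX, h, xe_st.zero]

/-- A finitely supported right translation lies in every subgroup which contains the elementary
groups of the levels in its support. -/
theorem th_mem [CharP K 2] [∀ i, (L i).FiniteIndex] {N : Subgroup (GG K L)} {g : FreeGroup β}
    (hg : {i | g ∉ L i}.Finite)
    (h : ∀ i, g ∉ L i → ∀ a b r, XX K L a b (Pi.single i r) ∈ N) : th K L g ∈ N :=
  Submonoid.pi_mem_of_mulSingle_mem_aux hg.toFinset _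
    (fun i hi => th_one (by simpa using hi))
    fun i hi => single_EL (h i (by simpa using hi)) (Dm_mem _)

theorem bounded3 {x : GG K L} (hx : x ∈ Gam K L) : ∃ S : Finset (FreeGroup β), ∀ i v y,
    (∀ s ∈ S, ∀ k, v k ((s : FreeGroup β ⧸ L i) * y) = 0) → ∀ k, (x i).val v k y = 0 := by
  have key : ∀ a b, ∀ r ∈ RR K L, ∃ S : Finset (FreeGroup β), ∀ i v y,
      (∀ s ∈ S, ∀ k, v k ((s : FreeGroup β ⧸ L i) * y) = 0) →
        ∀ k, (XX K L a b r i).val v k y = 0 := fun a b r hr => by
    obtain ⟨S, hS⟩ := bounded hr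
    refine ⟨insert 1 S, fun i v y h k => ?_⟩
    have h1 := h 1 (Finset.mem_insert_self _ _) k
    rw [QuotientGroup.mk_one, one_mul] at h1
    have h2 := hS i (v b) y fun s hs => h s (Finset.mem_insert_of_mem hs) b
    by_cases hab : a = b
    · rw [XX, hab, xe_diag]
      exact h1
    · rw [XX, xe_apply hab, Pi.add_apply, Pi.add_apply, h1, zero_add]
      by_cases hk : k = a
      · rw [hk, Pi.single_eq_same, h2]
      · rw [Pi.single_eq_of_ne hk, Pi.zero_apply]
  induction hx using Subgroup.closure_induction'' with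
  | one => simpa [XX, xe_diag] using key 0 0 0 (zero_mem _)
  | mem x hx =>
    obtain ⟨a, b, r, hr, rfl⟩ := hx
    exact key a b r hr
  | inv_mem x hx =>
    obtain ⟨a, b, r, hr, rfl⟩ := hx
    have : (XX K L a b r)⁻¹ = XX K L a b (-r) := funext fun i => (xe_st.neg a b (r i)).symm
    rw [this]
    exact key a b _ (neg_mem hr)
  | mul x y _ _ hx hy =>
    obtain ⟨S, hS⟩ := hx
    obtain ⟨T, hT⟩ := hy
    refine ⟨Finset.image₂ (· * ·) T S, fun i v z h =>
      hS i _ z fun s hs => hT i v _ fun t ht k => ?_⟩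
    rw [← mul_assoc]
    exact h (t * s) (Finset.mem_image₂_of_mem ht hs) k

theorem th_bounded {g : FreeGroup β} (h : th K L g ∈ Gam K L) :
    ∃ S : Finset (FreeGroup β), ∀ i (y : FreeGroup β ⧸ L i), ∃ s ∈ S,
      (s : FreeGroup β ⧸ L i) * y = y * g := by
  obtain ⟨S, hS⟩ := bounded3 h
  refine ⟨S, fun i y => ?_⟩
  by_contra hc
  push Not at hc
  have := hS i (fun _ => Pi.single (y * g) 1) y (fun s hs _ => Pi.single_eq_of_ne (hc s hs) _) 0
  rw [th_apply, Pi.single_eq_same] at this
  exact one_ne_zero this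

theorem tail [Finite β] [∀ i, (L i).FiniteIndex] (hL : Function.Injective L)
    (U : Subgroup (Gam K L)) [U.Normal] [U.FiniteIndex] :
    {i | ¬ ∀ a b r, XX K L a b (Pi.single i r) ∈ U.map (Gam K L).subtype}.Finite := by
  have hc : ∀ a : Gam K L, ∀ g ∈ U, a * g * a⁻¹ ∈ U := fun a g hg => ‹U.Normal›.conj_mem g hg a
  refine Set.Finite.of_injOn (t := Set.univ) (f := fun i =>
    (XG K L 2 0 ⟨Pi.single i 1, single_mem hL i 1⟩ : Gam K L ⧸ U)) (Set.mapsTo_univ _ _)
    (fun i hi m _ e => ?_) Set.finite_univ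
  by_contra him
  refine hi fun a b r => ?_
  rw [eq_comm, QuotientGroup.eq, ← (XG_st (K := K) (L := L)).neg, ← (XG_st (K := K) (L := L)).add] at e
  refine ⟨_, (XG_st (K := K) (L := L)).mul_left (s := ⟨Pi.single i r, single_mem hL i r⟩)
    ((XG_st (K := K) (L := L)).all (fun i j g hg => ⟨hc _ g hg, by simpa using hc (XG K L i j 1)⁻¹ g hg⟩) e)
    (fun i j => hc _) a b, congrArg (XX K L a b) (funext fun n => ?_)⟩
  by_cases h : n = i
  · subst h
    simp [him]
  · simp [h]

end Pool.Agent.Work.MP_d2e081_al.Rips
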