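import Mathlib

/-! Groups which are locally embeddable into finite groups. -/

set_option autoImplicit false

namespace Pool.Agent.Work.MP_d2e081_al

/-- Local embeddability into finite groups: every finite subset has an injective map to a finite
group which preserves the products that stay in the subset. -/
def LEF (Q : Type) [Group Q] : Prop :=
  ∀ S : Finset Q, ∃ (P : Type) (_ : Group P) (_ : Finite P) (φ : Q → P),
    Set.InjOn φ S ∧ ∀ a ∈ S, ∀ b ∈ S, a * b ∈ S → φ (a * b) = φ a * φ b

end Pool.Agent.Work.MP_d2e081_al
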