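import Pool.Agent.Work.MP_d2e081_al.Rips.C
import Pool.Agent.Work.MP_d2e081_al.Rips.Defs
import Pool.Agent.Work.MP_d2e081_al.Kaz
import Pool.Agent.Work.MP_d2e081_al.Prof

/-! The exact sequence. -/

set_option autoImplicit false

namespace Pool.Agent.Work.MP_d2e081_al.Rips

open Module Filter

open FreeGroup (of lift lift_apply_of)

open scoped Classical

theorem approx {α Q : Type} [Finite α] [Group Q] (π : FreeGroup α →* Q)
    (hπ : Function.Surjective π) (h : LEF Q) :
    ∃ (P : ℕ → Type) (_ : ∀ n, Group (P n)) (_ : ∀ n, Finite (P n))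
      (p : ∀ n, FreeGroup α →* P n), ∀ w, ∀ᶠ n in atTop, (p n w = 1 ↔ π w = 1) := by
  have := hπ.countable
  obtain ⟨e, he⟩ := exists_surjective_nat Q
  choose P i1 i2 φ h1 h2 using fun n => h ((Finset.range n).image e)
  have m : ∀ a, ∀ᶠ n in atTop, a ∈ (Finset.range n).image e := fun a => by
    obtain ⟨k, rfl⟩ := he a
    exact (eventually_gt_atTop k).mono fun n hn =>
      Finset.mem_image_of_mem _ (Finset.mem_range.2 hn)
  have mul : ∀ a b, ∀ᶠ n in atTop, φ n (a * b) = φ n a * φ n b := fun a b => by
    filter_upwards [m a, m b, m (a * b)] with n ha hb hab using h2 n a ha b hb hab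
  have one : ∀ᶠ n in atTop, φ n 1 = 1 := (mul 1 1).mono fun n hn => by
    rwa [mul_one, left_eq_mul] at hn
  have key : ∀ w, ∀ᶠ n in atTop, lift (fun a => φ n (π (of a))) w = φ n (π w) := fun w => by
    induction w using FreeGroup.induction_on with
    | C1 => exact one.mono fun n hn => by rw [map_one, map_one, hn]
    | of a => exact Eventually.of_forall fun n => lift_apply_of
    | inv_of a _ =>
      filter_upwards [one, mul (π (of a))⁻¹ (π (of a))] with n h3 h4
      rw [inv_mul_cancel, h3] at h4
      rw [map_inv, map_inv, lift_apply_of, eq_inv_of_mul_eq_one_left h4.symm]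
    | mul x y hx hy =>
      filter_upwards [hx, hy, mul (π x) (π y)] with n h3 h4 h5
      rw [map_mul, map_mul, h3, h4, h5]
  refine ⟨P, i1, i2, fun n => lift fun a => φ n (π (of a)), fun w => ?_⟩
  filter_upwards [key w, one, m (π w), m 1] with n h3 h4 h5 h6
  rw [h3]
  exact ⟨fun e' => h1 n h5 h6 (e'.trans h4.symm), fun e' => by rw [e', h4]⟩

/-- Left translations with an additional fixed point. -/
def JJ (P : Type) [Group P] : P →* Equiv.Perm (Option P) where
  toFun a := (Equiv.mulLeft a).optionCongr
  map_one' := Equiv.ext fun y => by cases y <;> simp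
  map_mul' a b := Equiv.ext fun y => by cases y <;> simp [mul_assoc]

/-- The action of the free group with one more generator. -/
noncomputable def qq {α P : Type} [Group P] (p : FreeGroup α →* P) :
    FreeGroup (Option α) →* Equiv.Perm (Option P) :=
  lift fun o => o.elim (Equiv.swap none (some 1)) fun a => JJ P (p (of a))

theorem qq_map {α P : Type} [Group P] (p : FreeGroup α →* P) (w : FreeGroup α) :
    qq p (FreeGroup.map some w) = JJ P (p w) :=
  DFunLike.congr_fun (FreeGroup.ext_hom ((qq p).comp (FreeGroup.map some)) ((JJ P).comp p)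
    fun a => by simp [qq]) w

theorem levels {α Q : Type} [Finite α] [Group Q] [Infinite Q] (π : FreeGroup α →* Q)
    (hπ : Function.Surjective π) (h : LEF Q) :
    ∃ (I : Type) (L : I → Subgroup (FreeGroup (Option α))) (_ : ∀ i, (L i).Normal)
      (_ : ∀ i, (L i).FiniteIndex), Function.Injective L ∧
      (∀ w, π w = 1 → {i | FreeGroup.map some w ∉ L i}.Finite) ∧
      ∀ w : FreeGroup α, (∃ S : Finset (FreeGroup (Option α)),
        ∀ i (y : FreeGroup (Option α) ⧸ L i), ∃ s ∈ S, (s : FreeGroup (Option α) ⧸ L i) * y =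
          y * (FreeGroup.map some w : FreeGroup (Option α))) → π w = 1 := by
  obtain ⟨P, _, _, p, hp⟩ := approx π hπ h
  refine ⟨Set.range fun n => (qq (p n)).ker, Subtype.val, ?_, ?_, Subtype.val_injective,
    fun w hw => ?_, fun w hS => ?_⟩
  · rintro ⟨_, n, rfl⟩
    exact MonoidHom.normal_ker _
  · rintro ⟨_, n, rfl⟩
    exact Subgroup.finiteIndex_ker _
  · have := hp w
    rw [← Nat.cofinite_eq_atTop, eventually_cofinite] at this
    refine (this.image fun n => ⟨_, n, rfl⟩).subset ?_
    rintro ⟨_, n, rfl⟩ hn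
    refine ⟨n, fun e => hn ?_, rfl⟩
    change qq (p n) _ = 1
    rw [qq_map, e.2 hw, map_one]
  · obtain ⟨S, hS⟩ := hS
    by_contra hw
    let x : Fin (S.card + 1) → FreeGroup α := fun k =>
      Function.surjInv hπ (Infinite.natEmbedding Q k)
    have hx : ∀ k l, π ((x k)⁻¹ * x l) = 1 → k = l := fun k l e => by
      rw [map_mul, map_inv, inv_mul_eq_one, Function.surjInv_eq hπ, Function.surjInv_eq hπ] at e
      exact Fin.ext ((Infinite.natEmbedding Q).injective e)
    obtain ⟨n, h1, h2⟩ := ((hp w).and (eventually_all.2 fun k : Fin (S.card + 1) × Fin (S.card + 1) =>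
      hp ((x k.1)⁻¹ * x k.2))).exists
    choose s h3 h4 using fun k => hS ⟨_, n, rfl⟩
      ((FreeGroup.map some (x k) * of none : FreeGroup (Option α)) : _ ⧸ (qq (p n)).ker)
    have h5 : ∀ k, qq (p n) (s k) none = some (p n (x k) * p n w) := fun k => by
      have := h4 k
      rw [← QuotientGroup.mk_mul, ← QuotientGroup.mk_mul, QuotientGroup.eq, MonoidHom.mem_ker,
        map_mul, map_inv, inv_mul_eq_one] at this
      have h6 := DFunLike.congr_fun this (some 1)
      have h7 : qq (p n) (of none) = Equiv.swap none (some 1) := by simp [qq]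
      have h8 : p n w ≠ 1 := fun e => hw (h1.1 e)
      simpa [qq_map, h7, JJ, Equiv.swap_apply_of_ne_of_ne, h8] using h6
    have := Fintype.card_le_of_injective (fun k => (⟨s k, h3 k⟩ : S)) fun k l e => hx k l
      ((h2 (k, l)).1 (by
        have h6 := h5 k
        rw [show s k = s l from congrArg Subtype.val e, h5 l, eq_comm] at h6
        rw [map_mul, map_inv, inv_mul_eq_one]
        simpa using h6))
    simp at this

end Pool.Agent.Work.MP_d2e081_al.Rips
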